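import Pool.Agent.Q75.HM.Stm

set_option autoImplicit false

/-!
# Project HM, job BB: the two left parts (helper121)
-/

namespace Pool.Agent.Q121.HM

open Complex Set Metric Filter Topology

open scoped Real ComplexConjugate

open Pool.Agent.Q75.HM

namespace BB

/-- the profile -/
noncomputable def prof (X : ℝ) : ℝ := max 1 (min 2 ((X + 3) / 4))

theorem one_le_prof (X : ℝ) : 1 ≤ prof X := le_max_left _ _

theorem prof_le_two (X : ℝ) : prof X ≤ 2 := max_le (by norm_num) (min_le_left _ _)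

theorem prof_mono {X Y : ℝ} (h : X ≤ Y) : prof X ≤ prof Y := by
  unfold prof
  apply max_le_max le_rfl
  apply min_le_min le_rfl
  linarith

theorem prof_one {X : ℝ} (h : X ≤ 1) : prof X = 1 := by
  unfold prof
  apply max_eq_left
  exact (min_le_right _ _).trans (by linarith)

theorem prof_five {X : ℝ} (h : 5 ≤ X) : prof X = 2 := by
  unfold prof
  rw [min_eq_left (by linarith), max_eq_right (by norm_num)]

theorem continuous_prof : Continuous prof := by
  unfold prof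
  fun_prop

theorem prof_star {s x : ℝ} (hs : 0 ≤ s) (hs1 : s ≤ 1) : (1 - s) * prof x ≤ prof ((1 - s) * x - s) := by
  have h1 := one_le_prof ((1 - s) * x - s)
  have h2 : min 2 (((1 - s) * x - s + 3) / 4) ≤ prof ((1 - s) * x - s) := le_max_right _ _
  rcases le_total x 1 with hx | hx
  · rw [prof_one hx]
    linarith
  · refine le_trans ?_ h2
    have h3 : prof x ≤ 2 := prof_le_two x
    have h4 : prof x ≤ (x + 3) / 4 := by
      unfold prof
      apply max_le
      · linarith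
      · exact min_le_right _ _
    apply le_min
    · nlinarith
    · rcases le_total x 5 with hx5 | hx5
      · nlinarith
      · nlinarith

/-- the left part -/
def Hl (l : ℝ) : Set ℂ := {z | z.re < 0 ∧ |z.im| < l * prof (-z.re / l)}

theorem ld {l : ℝ} (hl : 0 < l) : LD (Hl l) := by
  constructor
  · have h1 : IsOpen {z : ℂ | z.re < 0} := isOpen_lt Complex.continuous_re continuous_const
    have h2 : IsOpen {z : ℂ | |z.im| < l * prof (-z.re / l)} :=
      isOpen_lt (continuous_abs.comp Complex.continuous_im)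
        (continuous_const.mul (continuous_prof.comp ((Complex.continuous_re.neg).div_const l)))
    exact h1.inter h2
  · rintro z ⟨hz1, hz2⟩ w hw1 hw2
    refine ⟨lt_of_le_of_lt hw1 hz1, ?_⟩
    have h1 : prof (-z.re / l) ≤ prof (-w.re / l) := prof_mono (by
      apply div_le_div_of_nonneg_right _ hl.le
      linarith)
    calc |w.im| ≤ |z.im| := hw2
      _ < l * prof (-z.re / l) := hz2
      _ ≤ l * prof (-w.re / l) := mul_le_mul_of_nonneg_left h1 hl.le

theorem hs_sub {l : ℝ} (hl : 0 < l) : HS 0 l ⊆ Hl l := by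
  rintro z ⟨h1, h2⟩
  refine ⟨h1, lt_of_lt_of_le h2 ?_⟩
  have := one_le_prof (-z.re / l)
  nlinarith

theorem third {l : ℝ} (hl : 0 < l) {y t : ℝ} (hy : |t| < y) (h : HS 0 y ⊆ Hl l) : |t| < l := by
  have h1 : (⟨-(l / 2), t⟩ : ℂ) ∈ Hl l := h ⟨by
    show -(l / 2) < 0
    linarith, hy⟩
  have h2 : |t| < l * prof (-(-(l / 2)) / l) := h1.2
  rwa [prof_one (by
    rw [neg_neg, div_div, div_le_one (by positivity)]
    linarith), mul_one] at h2

theorem mem_Wd {l : ℝ} (hl : 0 < l) (z : ℂ) : z ∈ Wd (Hl l) 0 ↔ |z.im| < l * prof (|z.re| / l) := by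
  constructor
  · rintro ((⟨h1, h2⟩ | ⟨h1, h2⟩) | ⟨y, h1, h2⟩)
    · have h3 := h2.2
      rwa [abs_of_neg h1]
    · have h3 : |z.im| < l * prof (-(2 * 0 - z.re) / l) := h2.2
      rw [abs_of_pos h1]
      rwa [show -(2 * 0 - z.re) = z.re by ring] at h3
    · have h3 := third hl h1 h2
      have := one_le_prof (|z.re| / l)
      nlinarith
  · intro h
    rcases lt_trichotomy z.re 0 with h1 | h1 | h1
    · left; left
      refine ⟨h1, h1, ?_⟩
      rwa [abs_of_neg h1] at h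
    · right
      refine ⟨l, ?_, hs_sub hl⟩
      rwa [h1, abs_zero, zero_div, prof_one (by norm_num), mul_one] at h
    · left; right
      refine ⟨h1, ?_, ?_⟩
      · show 2 * 0 - z.re < 0
        linarith
      · show |z.im| < l * prof (-(2 * 0 - z.re) / l)
        rw [show -(2 * 0 - z.re) = z.re by ring]
        rwa [abs_of_pos h1] at h

theorem mem_left {l τ : ℝ} (hl : 0 < l) (hτ : 0 < τ) {x y : ℝ} (h1 : x < τ)
    (h : |y| < l * prof (-x / l)) : (⟨x, y⟩ : ℂ) ∈ Hl l ∪ HS τ l := by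
  rcases lt_or_ge x 0 with h2 | h2
  · exact Or.inl ⟨h2, h⟩
  · refine Or.inr ⟨h1, ?_⟩
    have h3 : -x / l ≤ 1 := by
      rw [div_le_one hl]
      linarith
    rwa [prof_one h3, mul_one] at h

theorem mem_Wd' {l τ : ℝ} (hl : 0 < l) (hτ : 0 < τ) {w : ℂ}
    (h : |w.im| < l * prof ((|w.re - τ| - τ) / l)) : w ∈ Wd (Hl l ∪ HS τ l) τ := by
  rcases lt_trichotomy w.re τ with h1 | h1 | h1
  · left; left
    refine ⟨h1, mem_left hl hτ h1 ?_⟩
    rw [abs_of_neg (by linarith : w.re - τ < 0)] at h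
    rwa [show -(w.re - τ) - τ = -w.re by ring] at h
  · right
    refine ⟨l, ?_, subset_union_right⟩
    have h3 : (|w.re - τ| - τ) / l ≤ 1 := by
      rw [h1, sub_self, abs_zero, div_le_one hl]
      linarith
    rwa [prof_one h3, mul_one] at h
  · left; right
    refine ⟨h1, mem_left hl hτ (by linarith) ?_⟩
    rw [abs_of_pos (by linarith : 0 < w.re - τ)] at h
    rwa [show w.re - τ - τ = -(2 * τ - w.re) by ring] at h

theorem star {l : ℝ} (hl : 0 < l) : StarP (Hl l) l (1 / l) := by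
  refine ⟨by positivity, fun τ hτ hτ1 z hz => ?_⟩
  rw [mem_Wd hl] at hz
  apply mem_Wd' hl hτ
  have hs : 1 / l * τ = τ / l := by ring
  rw [hs] at hτ1 ⊢
  have hs0 : 0 < τ / l := by positivity
  have e1 : (((1 - τ / l : ℝ) : ℂ) * z + (τ : ℂ)).im = (1 - τ / l) * z.im := by
    rw [Complex.add_im, Complex.im_ofReal_mul, Complex.ofReal_im, add_zero]
  have e2 : (((1 - τ / l : ℝ) : ℂ) * z + (τ : ℂ)).re - τ = (1 - τ / l) * z.re := by
    rw [Complex.add_re, Complex.re_ofReal_mul, Complex.ofReal_re]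
    ring
  rw [e1, e2, abs_mul, abs_mul, abs_of_pos (by linarith : 0 < 1 - τ / l)]
  have h3 := prof_star (x := |z.re| / l) hs0.le hτ1.le
  have e3 : ((1 - τ / l) * |z.re| - τ) / l = (1 - τ / l) * (|z.re| / l) - τ / l := by ring
  rw [e3]
  calc (1 - τ / l) * |z.im| < (1 - τ / l) * (l * prof (|z.re| / l)) :=
        mul_lt_mul_of_pos_left hz (by linarith)
    _ = l * ((1 - τ / l) * prof (|z.re| / l)) := by ring
    _ ≤ l * prof ((1 - τ / l) * (|z.re| / l) - τ / l) := mul_le_mul_of_nonneg_left h3 hl.le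

theorem hb {l M : ℝ} (hl : 0 < l) (hM : 2 * l ≤ M) : HB (Hl l) l M := by
  refine ⟨ld hl, fun z hz => ⟨hz.1, ?_⟩, hl, hs_sub hl, ?_⟩
  · have h1 := hz.2
    have h2 := prof_le_two (-z.re / l)
    nlinarith
  · intro z hz h0
    rw [mem_Wd hl, h0, abs_zero, zero_div, prof_one (by norm_num), mul_one] at hz
    exact hz

theorem zero_mem {l : ℝ} (hl : 0 < l) : (0 : ℂ) ∈ Wd (Hl l) 0 := by
  rw [mem_Wd hl]
  rw [Complex.zero_im, abs_zero]
  have := one_le_prof (|(0 : ℂ).re| / l)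
  positivity

theorem ld1 : LD (HS 0 1) := by
  constructor
  · have h1 : IsOpen {z : ℂ | z.re < 0} := isOpen_lt Complex.continuous_re continuous_const
    have h2 : IsOpen {z : ℂ | |z.im| < 1} :=
      isOpen_lt (continuous_abs.comp Complex.continuous_im) continuous_const
    exact h1.inter h2
  · rintro z ⟨h1, h2⟩ w hw1 hw2
    exact ⟨lt_of_le_of_lt hw1 h1, lt_of_le_of_lt hw2 h2⟩

theorem wd1 {z : ℂ} (hz : z ∈ Wd (HS 0 1) 0) : |z.im| < 1 := by
  rcases hz with (⟨_, h2⟩ | ⟨_, h2⟩) | ⟨y, h1, h2⟩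
  · exact h2.2
  · exact h2.2
  · have h3 : (⟨-1, z.im⟩ : ℂ) ∈ HS 0 1 := h2 ⟨by
      show (-1 : ℝ) < 0
      norm_num, h1⟩
    exact h3.2

theorem hb1 {M : ℝ} (hM : 1 ≤ M) : HB (HS 0 1) 1 M :=
  ⟨ld1, fun z hz => ⟨hz.1, lt_of_lt_of_le hz.2 hM⟩, one_pos, subset_rfl, fun z hz _ => wd1 hz⟩

theorem star1 : StarP (HS 0 1) 1 0 := by
  refine ⟨le_rfl, fun τ hτ _ z hz => ?_⟩
  right
  refine ⟨1, ?_, subset_union_right⟩
  have h1 := wd1 hz
  rw [zero_mul, sub_zero, Complex.ofReal_one, one_mul, Complex.add_im, Complex.ofReal_im, add_zero]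
  exact h1

theorem dil {l : ℝ} (hl : 0 < l) : {w : ℂ | (l : ℂ)⁻¹ * w ∈ Wd (Hl 1) 0} = Wd (Hl l) 0 := by
  ext w
  rw [mem_ofPred_eq, mem_Wd one_pos, mem_Wd hl, ← Complex.ofReal_inv, Complex.im_ofReal_mul,
    Complex.re_ofReal_mul, abs_mul, abs_mul, abs_of_pos (inv_pos.2 hl), one_mul, div_one]
  have e : l⁻¹ * |w.re| = |w.re| / l := by ring
  rw [e, inv_mul_lt_iff₀ hl]

end BB

open BB

/-- JOB BB -/
theorem t_BB (hQB : S_QB) (hQT : S_QT) (hWD : S_WD) : S_BB := by
  have d1 : Dm (Wd (HS 0 1) 0) :=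
    (hWD (HS 0 1) 0 1 1 ld1 one_pos subset_rfl (fun z hz => hz.2)).1
  have d2 : Dm (Wd (Hl 1) 0) :=
    (hWD (Hl 1) 0 1 2 (ld one_pos) one_pos (hs_sub one_pos) (fun z hz =>
      ((hb (M := 2) one_pos (by norm_num)).2.1 z hz).2)).1
  have m1 : (0 : ℂ) ∈ Wd (HS 0 1) 0 := Or.inr ⟨1, by
    rw [Complex.zero_im, abs_zero]
    exact one_pos, subset_rfl⟩
  have q1 : 0 < qn (Wd (HS 0 1) 0) 0 0 := (hQB _ 0 0 d1 m1 m1).2.1
  have q2 : 0 < qn (Wd (Hl 1) 0) 0 0 := (hQB _ 0 0 d2 (zero_mem one_pos) (zero_mem one_pos)).2.1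
  obtain ⟨l, hl⟩ : ∃ l, l = qn (Wd (Hl 1) 0) 0 0 / qn (Wd (HS 0 1) 0) 0 0 := ⟨_, rfl⟩
  have hl0 : 0 < l := by
    rw [hl]
    positivity
  refine ⟨HS 0 1, Hl l, 1, l, 1 + 2 * l, 0, 1 / l, qn (Wd (HS 0 1) 0) 0 0, hb1 (by linarith),
    hb hl0 (by linarith), star1, star hl0, q1, rfl, ?_, ?_⟩
  · have h := hQT.2 (Wd (Hl 1) 0) l 0 0 hl0
    rw [dil hl0, mul_zero] at h
    rw [h, hl, inv_div, div_mul_cancel₀ _ q2.ne']
  · intro he
    have h1 : 1 ≤ l := by
      by_contra hlt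
      push Not at hlt
      have h2 : (⟨-(l / 2), l⟩ : ℂ) ∈ HS 0 1 := ⟨by
        show -(l / 2) < 0
        linarith, by
        show |l| < 1
        rwa [abs_of_pos hl0]⟩
      rw [he] at h2
      have h3 : |l| < l * prof (-(-(l / 2)) / l) := h2.2
      rw [prof_one (by
        rw [neg_neg, div_div, div_le_one (by positivity)]
        linarith), mul_one, abs_of_pos hl0] at h3
      exact lt_irrefl _ h3
    have h4 : (⟨-(5 * l), 3 / 2 * l⟩ : ℂ) ∈ Hl l := ⟨by
      show -(5 * l) < 0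
      linarith, by
      show |3 / 2 * l| < l * prof (-(-(5 * l)) / l)
      rw [prof_five (by
        rw [neg_neg, mul_div_assoc, div_self hl0.ne', mul_one]), abs_of_pos (by positivity)]
      linarith⟩
    rw [← he] at h4
    have h5 : |3 / 2 * l| < 1 := h4.2
    rw [abs_of_pos (by positivity)] at h5
    linarith

end Pool.Agent.Q121.HM
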