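import Pool.Agent.Q264.HM.Stm

set_option autoImplicit false

/-!
Project HM, JOB FOUR: the four-point condition for the tree of a free group.
-/

open Pool.Agent.Q264.HM

namespace Pool.Agent.Q121.HM.FOUR

variable {α : Type} [DecidableEq α]

/-- the length of the longest common prefix -/
def cp : List (α × Bool) → List (α × Bool) → ℕ
  | [], _ => 0
  | _ :: _, [] => 0
  | a :: s, b :: t => if a = b then cp s t + 1 else 0

theorem cp_nil_left (t : List (α × Bool)) : cp [] t = 0 := rfl

theorem cp_nil_right (s : List (α × Bool)) : cp s [] = 0 := by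
  cases s <;> rfl

theorem cp_cons (a b : α × Bool) (s t : List (α × Bool)) :
    cp (a :: s) (b :: t) = if a = b then cp s t + 1 else 0 := rfl

theorem cp_ultra (l₁ l₂ l₃ : List (α × Bool)) : min (cp l₁ l₂) (cp l₂ l₃) ≤ cp l₁ l₃ := by
  induction l₁ generalizing l₂ l₃ with
  | nil => simp [cp_nil_left]
  | cons a s ih =>
    cases l₂ with
    | nil => simp [cp_nil_right]
    | cons b t =>
      cases l₃ with
      | nil => simp [cp_nil_right]
      | cons c u =>
        rw [cp_cons, cp_cons, cp_cons]
        have := ih t u
        by_cases h1 : a = b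
        · by_cases h2 : b = c
          · rw [if_pos h1, if_pos h2, if_pos (h1.trans h2)]
            omega
          · rw [if_neg h2]
            simp
        · rw [if_neg h1]
          simp

theorem cp_comm (l₁ l₂ : List (α × Bool)) : cp l₁ l₂ = cp l₂ l₁ := by
  induction l₁ generalizing l₂ with
  | nil => simp [cp_nil_left, cp_nil_right]
  | cons a s ih =>
    cases l₂ with
    | nil => simp [cp_nil_left, cp_nil_right]
    | cons b t =>
      rw [cp_cons, cp_cons, ih t]
      by_cases h : a = b
      · rw [if_pos h, if_pos h.symm]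
      · rw [if_neg h, if_neg (Ne.symm h)]

theorem red_tail {a : α × Bool} {s : List (α × Bool)} (h : FreeGroup.IsReduced (a :: s)) :
    FreeGroup.IsReduced s := List.IsChain.tail h

theorem red_invRev {s : List (α × Bool)} (h : FreeGroup.IsReduced s) :
    FreeGroup.IsReduced (FreeGroup.invRev s) := by
  rw [FreeGroup.isReduced_iff_reduce_eq, FreeGroup.reduce_invRev, h.reduce_eq]

theorem norm_mk {s : List (α × Bool)} (h : FreeGroup.IsReduced s) :
    (FreeGroup.mk s).norm = s.length := by
  unfold FreeGroup.norm
  rw [FreeGroup.toWord_mk, h.reduce_eq]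

theorem norm_cp {l₁ l₂ : List (α × Bool)} (h₁ : FreeGroup.IsReduced l₁)
    (h₂ : FreeGroup.IsReduced l₂) :
    ((FreeGroup.mk l₁)⁻¹ * FreeGroup.mk l₂).norm + 2 * cp l₁ l₂ = l₁.length + l₂.length := by
  induction l₁ generalizing l₂ with
  | nil =>
    have : (FreeGroup.mk ([] : List (α × Bool))) = 1 := rfl
    rw [this, inv_one, one_mul, norm_mk h₂, cp_nil_left]
    simp
  | cons a s ih =>
    cases l₂ with
    | nil =>
      have : (FreeGroup.mk ([] : List (α × Bool))) = 1 := rfl
      rw [this, mul_one, FreeGroup.norm_inv_eq, norm_mk h₁, cp_nil_right]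
      simp
    | cons b t =>
      rw [cp_cons]
      by_cases h : a = b
      · subst h
        rw [if_pos rfl]
        have e1 : ∀ u : List (α × Bool), FreeGroup.mk (a :: u) = FreeGroup.mk [a] * FreeGroup.mk u := by
          intro u
          rw [FreeGroup.mul_mk]
          rfl
        have e2 : (FreeGroup.mk (a :: s))⁻¹ * FreeGroup.mk (a :: t) =
            (FreeGroup.mk s)⁻¹ * FreeGroup.mk t := by
          rw [e1 s, e1 t]
          group
        rw [e2]
        have := ih (red_tail h₁) (red_tail h₂)
        simp only [List.length_cons]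
        omega
      · rw [if_neg h, FreeGroup.inv_mk, FreeGroup.mul_mk, norm_mk]
        · simp [FreeGroup.invRev_length]
        · have hr := red_invRev h₁
          unfold FreeGroup.IsReduced at hr h₂ ⊢
          rw [List.isChain_append]
          refine ⟨hr, h₂, ?_⟩
          intro x hx y hy
          have hy' : b = y := by simpa using hy
          have hx' : (a.1, !a.2) = x := by
            have : FreeGroup.invRev (a :: s) = FreeGroup.invRev s ++ [(a.1, !a.2)] := by
              simp [FreeGroup.invRev]
            rw [this] at hx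
            simpa using hx
          subst hx' hy'
          intro e
          simp only at e ⊢
          obtain ⟨a1, a2⟩ := a
          obtain ⟨b1, b2⟩ := b
          simp only at e ⊢
          subst e
          revert h
          cases a2 <;> cases b2 <;> simp

theorem norm_cp' {n : ℕ} (x y : FreeGroup (Fin n)) :
    (x⁻¹ * y).norm + 2 * cp x.toWord y.toWord = x.norm + y.norm := by
  have := norm_cp (l₁ := x.toWord) (l₂ := y.toWord) FreeGroup.isReduced_toWord
    FreeGroup.isReduced_toWord
  rw [FreeGroup.mk_toWord, FreeGroup.mk_toWord] at this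
  exact this

theorem t_FOUR : S_FOUR := by
  intro n a b c d
  have key : ∀ x y z : FreeGroup (Fin n),
      (x⁻¹ * y).norm + z.norm ≤ max ((x⁻¹ * z).norm + y.norm) (x.norm + (y⁻¹ * z).norm) := by
    intro x y z
    have h1 := norm_cp' x y
    have h2 := norm_cp' x z
    have h3 := norm_cp' y z
    have h4 := cp_ultra x.toWord z.toWord y.toWord
    rw [cp_comm z.toWord y.toWord] at h4
    omega
  have := key (d⁻¹ * a) (d⁻¹ * b) (d⁻¹ * c)
  have e : ∀ x y : FreeGroup (Fin n), (d⁻¹ * x)⁻¹ * (d⁻¹ * y) = x⁻¹ * y := by
    intro x y
    group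
  have e' : ∀ x : FreeGroup (Fin n), (d⁻¹ * x).norm = (x⁻¹ * d).norm := by
    intro x
    rw [← FreeGroup.norm_inv_eq]
    congr 1
    group
  rw [e, e, e, e', e', e'] at this
  unfold dd
  exact this

end Pool.Agent.Q121.HM.FOUR
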